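import Pool.Agent.Lib.P56acde.Main

/-!
# Convex algebraically integrable bodies in odd dimensions are ellipsoids

Negative answer to the question of V. I. Arnold (1990): for every `k ≥ 1`, every convex body in `ℝ^(2k+1)` with
`C^∞`-smooth boundary which is algebraically integrable is an ellipsoid.

Outline of the proof (see the files in `Pool/Agent/Lib/P56acde`).  For a direction `w` the Cauchy transform of the section
function, `F_w(t) = ∫_K dx / (⟨x,w⟩ - t) = - ∑ M_k(w) t^(-k-1)`, has polynomial coefficients `M_k(w)`.  For almost every `w` the
section function `A_w` is algebraic and analytic on a neighbourhood of `[lo, hi]` (here the dimension is odd), and if `M` is the linear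
differential operator of minimal order over `ℂ(t)` annihilating `A_w` (with denominators cleared) then `M F_w = c` is a polynomial, and `M y = c`
has no formal power series solution at the two ends `lo, hi`.  If a field automorphism of `ℂ` carries the moments `M_k(w)` to
`M_k(w')`, then it carries `M y = c` to an equation satisfied by `F_{w'}`, which has formal power series solutions at all points except `lo', hi'`.  So it
carries `{lo, hi}` to `{lo', hi'}`; hence `lo + hi` and `lo * hi` are rational functions on every generic line, bounded by the growth of the moments at
complex points, so polynomials of degree `1` and `2`.  So the support function is a linear form plus the square root of a quadratic form.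
-/

namespace Pool.Agent.Results.MP_56acde_gt.EllipsoidOdd

open P56acde

/-- For every `k ≥ 1`, every convex body `K ⊂ ℝ^(2k+1)` with `C^∞`-smooth boundary that is algebraically integrable is an
ellipsoid. -/
theorem result (k : ℕ) (hk : 1 ≤ k) (K : Set (EuclideanSpace ℝ (Fin (2 * k + 1))))
    (hcomp : IsCompact K) (hconv : Convex ℝ K) (hint : (interior K).Nonempty)
    (hsmooth : SmoothBoundary K) (halg : AlgebraicallyIntegrable K) :
    IsEllipsoid K :=
  P56acde.main hk hcomp hconv hint hsmooth halg

end Pool.Agent.Results.MP_56acde_gt.EllipsoidOdd
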